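import Mathlib

/-!
# Independent events in the limit: the binomial law and the law of large numbers
-/

set_option autoImplicit false

open Filter Topology Finset

namespace Pool.Agent.R413.MQ.Bin

/-- Chebyshev's inequality for the binomial law -/
theorem cheb {n : ℕ} (hn : 0 < n) {c ε : ℝ} (hc0 : 0 ≤ c) (hc1 : c ≤ 1) (hε : 0 < ε)
    (A : Finset ℕ) (hA : A ⊆ range (n + 1)) (h : ∀ k ∈ A, ε ≤ |(k : ℝ) / n - c|) :
    ∑ k ∈ A, (n.choose k : ℝ) * c ^ k * (1 - c) ^ (n - k) ≤ c * (1 - c) / (ε ^ 2 * n) := by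
  have hn0 : (0 : ℝ) < n := by exact_mod_cast hn
  have hv := congrArg (Polynomial.eval c) (bernsteinPolynomial.variance (R := ℝ) n)
  rw [Polynomial.eval_finsetSum] at hv
  have e1 : ∀ k ∈ range (n + 1), Polynomial.eval c ((n • Polynomial.X - (k : Polynomial ℝ)) ^ 2 *
      bernsteinPolynomial ℝ n k) =
      ((n : ℝ) * c - k) ^ 2 * ((n.choose k : ℝ) * c ^ k * (1 - c) ^ (n - k)) := by
    intro k _
    unfold bernsteinPolynomial
    simp
  rw [sum_congr rfl e1] at hv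
  have e2 : Polynomial.eval c (n • Polynomial.X * ((1 : Polynomial ℝ) - Polynomial.X)) =
      n * c * (1 - c) := by simp
  rw [e2] at hv
  have hb : ∀ k, 0 ≤ (n.choose k : ℝ) * c ^ k * (1 - c) ^ (n - k) := by
    intro k
    have : 0 ≤ 1 - c := by linarith
    positivity
  have h1 : ∑ k ∈ A, (ε * n) ^ 2 * ((n.choose k : ℝ) * c ^ k * (1 - c) ^ (n - k)) ≤
      n * c * (1 - c) := by
    rw [← hv]
    refine (sum_le_sum (f := fun k => (ε * n) ^ 2 * ((n.choose k : ℝ) * c ^ k *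
      (1 - c) ^ (n - k))) (g := fun k => ((n : ℝ) * c - k) ^ 2 * ((n.choose k : ℝ) * c ^ k *
      (1 - c) ^ (n - k))) fun k hk => ?_).trans
      (sum_le_sum_of_subset_of_nonneg hA fun k _ _ => mul_nonneg (sq_nonneg _) (hb k))
    refine mul_le_mul_of_nonneg_right ?_ (hb k)
    have h2 := h k hk
    have h3 : (n : ℝ) * c - k = -(n * ((k : ℝ) / n - c)) := by
      field_simp
      ring
    rw [h3, neg_sq, mul_pow, mul_pow, mul_comm]
    refine mul_le_mul_of_nonneg_left ?_ (sq_nonneg _)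
    rw [← sq_abs ((k : ℝ) / n - c)]
    exact pow_le_pow_left₀ hε.le h2 2
  rw [← mul_sum] at h1
  rw [le_div_iff₀ (by positivity)]
  have h2 : 0 < (n : ℝ) := hn0
  have h3 : (∑ k ∈ A, (n.choose k : ℝ) * c ^ k * (1 - c) ^ (n - k)) * (ε ^ 2 * n) * n ≤
      c * (1 - c) * n := by
    calc (∑ k ∈ A, (n.choose k : ℝ) * c ^ k * (1 - c) ^ (n - k)) * (ε ^ 2 * n) * n =
        (ε * n) ^ 2 * ∑ k ∈ A, (n.choose k : ℝ) * c ^ k * (1 - c) ^ (n - k) := by ring
      _ ≤ n * c * (1 - c) := h1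
      _ = c * (1 - c) * n := by ring
  exact le_of_mul_le_mul_right h3 hn0

section law
variable {ι : Type} [DecidableEq ι] {T : Finset ι} {G : ι → ℕ → Prop} {Fam : ℕ → Prop} {c : ℝ}

open Classical in
/-- the number of the `D ≤ X` with `Fam D` and `Q D` -/
noncomputable def cnt (Fam Q : ℕ → Prop) (X : ℕ) : ℕ :=
  ((Icc 1 X).filter fun D => Fam D ∧ Q D).card

open Classical in
/-- the number of the successes -/
noncomputable def N (T : Finset ι) (G : ι → ℕ → Prop) (D : ℕ) : ℕ := (T.filter fun i => G i D).card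

omit [DecidableEq ι] in
theorem N_le (D : ℕ) : N T G D ≤ T.card := by
  classical
  exact card_filter_le _ _

theorem cnt_card {Q : ℕ → Prop} {X : ℕ} {s : Finset ℕ}
    (h : ∀ D, D ∈ s ↔ D ∈ Icc 1 X ∧ Fam D ∧ Q D) : cnt Fam Q X = s.card := by
  classical
  unfold cnt
  congr 1
  ext D
  rw [mem_filter, h D]

theorem cnt_mono {Q R : ℕ → Prop} (h : ∀ D, Fam D → Q D → R D) (X : ℕ) :
    cnt Fam Q X ≤ cnt Fam R X := by
  classical
  refine card_le_card fun D hD => ?_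
  rw [mem_filter] at hD ⊢
  exact ⟨hD.1, hD.2.1, h D hD.2.1 hD.2.2⟩

theorem cnt_congr {Q R : ℕ → Prop} (h : ∀ D, Fam D → (Q D ↔ R D)) (X : ℕ) :
    cnt Fam Q X = cnt Fam R X :=
  le_antisymm (cnt_mono (fun D hF hQ => (h D hF).1 hQ) X) (cnt_mono (fun D hF hQ => (h D hF).2 hQ) X)

/-- two properties that cover the family -/
theorem cnt_union {Q R : ℕ → Prop} (h : ∀ D, Fam D → Q D ∨ R D) (X : ℕ) :
    cnt Fam (fun _ => True) X ≤ cnt Fam Q X + cnt Fam R X := by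
  classical
  obtain ⟨s, hs⟩ : ∃ s : Finset ℕ, ∀ D, D ∈ s ↔ D ∈ Icc 1 X ∧ Fam D ∧ True :=
    ⟨(Icc 1 X).filter fun D => Fam D ∧ True, fun D => by rw [mem_filter]⟩
  obtain ⟨s1, hs1⟩ : ∃ s : Finset ℕ, ∀ D, D ∈ s ↔ D ∈ Icc 1 X ∧ Fam D ∧ Q D :=
    ⟨(Icc 1 X).filter fun D => Fam D ∧ Q D, fun D => by rw [mem_filter]⟩
  obtain ⟨s2, hs2⟩ : ∃ s : Finset ℕ, ∀ D, D ∈ s ↔ D ∈ Icc 1 X ∧ Fam D ∧ R D :=
    ⟨(Icc 1 X).filter fun D => Fam D ∧ R D, fun D => by rw [mem_filter]⟩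
  rw [cnt_card hs, cnt_card hs1, cnt_card hs2]
  refine le_trans (card_le_card fun D hD => ?_) (card_union_le _ _)
  obtain ⟨h1, h2, -⟩ := (hs D).1 hD
  rw [mem_union, hs1, hs2]
  exact (h D h2).imp (fun h3 => ⟨h1, h2, h3⟩) fun h3 => ⟨h1, h2, h3⟩

/-- the law of the number of the successes -/
theorem law_eq (h : ∀ V ⊆ T, Tendsto (fun X : ℕ =>
      (cnt Fam (fun D => ∀ i ∈ T, (G i D ↔ i ∈ V)) X : ℝ) / (cnt Fam (fun _ => True) X : ℝ)) atTop
      (𝓝 (c ^ V.card * (1 - c) ^ (T.card - V.card)))) (k : ℕ) :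
    Tendsto (fun X : ℕ => (cnt Fam (fun D => N T G D = k) X : ℝ) /
      (cnt Fam (fun _ => True) X : ℝ)) atTop
      (𝓝 ((T.card.choose k : ℝ) * c ^ k * (1 - c) ^ (T.card - k))) := by
  classical
  have h1 : ∀ X, (cnt Fam (fun D => N T G D = k) X : ℝ) =
      ∑ V ∈ T.powersetCard k, (cnt Fam (fun D => ∀ i ∈ T, (G i D ↔ i ∈ V)) X : ℝ) := by
    intro X
    rw [← Nat.cast_sum, Nat.cast_inj]
    obtain ⟨s, hs⟩ : ∃ s : Finset ℕ, ∀ D, D ∈ s ↔ D ∈ Icc 1 X ∧ Fam D ∧ N T G D = k :=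
      ⟨(Icc 1 X).filter fun D => Fam D ∧ N T G D = k, fun D => by rw [mem_filter]⟩
    have hs1 : cnt Fam (fun D => N T G D = k) X = s.card := cnt_card hs
    rw [hs1, card_eq_sum_card_fiberwise (f := fun D => T.filter fun i => G i D)
      (t := T.powersetCard k) (fun D hD => by
        have hD' := (hs D).1 hD
        exact mem_coe.2 (mem_powersetCard.2 ⟨filter_subset _ _, hD'.2.2⟩))]
    refine sum_congr rfl fun V hV => ?_
    rw [mem_powersetCard] at hV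
    refine (cnt_card fun D => ?_).symm
    rw [mem_filter, hs]
    constructor
    · rintro ⟨⟨h2, h3, h4⟩, h5⟩
      refine ⟨h2, h3, fun i hi => ?_⟩
      rw [← h5, mem_filter]
      exact ⟨fun h6 => ⟨hi, h6⟩, fun h6 => h6.2⟩
    · rintro ⟨h2, h3, h4⟩
      have h5 : (T.filter fun i => G i D) = V := by
        ext i
        rw [mem_filter]
        exact ⟨fun h6 => (h4 i h6.1).1 h6.2, fun h6 => ⟨hV.1 h6, (h4 i (hV.1 h6)).2 h6⟩⟩
      refine ⟨⟨h2, h3, ?_⟩, h5⟩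
      have h6 : N T G D = V.card := by
        unfold N
        exact congrArg card h5
      rw [h6]
      exact hV.2
  simp only [h1, sum_div]
  have h2 : (T.card.choose k : ℝ) * c ^ k * (1 - c) ^ (T.card - k) =
      ∑ V ∈ T.powersetCard k, c ^ V.card * (1 - c) ^ (T.card - V.card) := by
    rw [sum_congr rfl (g := fun _ => c ^ k * (1 - c) ^ (T.card - k)) fun V hV => by
      rw [(mem_powersetCard.1 hV).2], sum_const, card_powersetCard, nsmul_eq_mul, mul_assoc]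
  rw [h2]
  exact tendsto_finsetSum _ fun V hV => h V (mem_powersetCard.1 hV).1

/-- the law of large numbers -/
theorem lln (hT : T.Nonempty) (hc0 : 0 ≤ c) (hc1 : c ≤ 1) (h : ∀ V ⊆ T, Tendsto (fun X : ℕ =>
      (cnt Fam (fun D => ∀ i ∈ T, (G i D ↔ i ∈ V)) X : ℝ) / (cnt Fam (fun _ => True) X : ℝ)) atTop
      (𝓝 (c ^ V.card * (1 - c) ^ (T.card - V.card))))
    {ε δ : ℝ} (hε : 0 < ε) (hδ : 0 < δ) : ∃ X₀ : ℕ, ∀ X : ℕ, X₀ ≤ X →
      (cnt Fam (fun D => ε ≤ |(N T G D : ℝ) / T.card - c|) X : ℝ) ≤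
        (c * (1 - c) / (ε ^ 2 * T.card) + δ) * (cnt Fam (fun _ => True) X : ℝ) := by
  classical
  set A : Finset ℕ := (range (T.card + 1)).filter fun k => ε ≤ |(k : ℝ) / T.card - c| with hA
  have h1 : ∀ X, (cnt Fam (fun D => ε ≤ |(N T G D : ℝ) / T.card - c|) X : ℝ) =
      ∑ k ∈ A, (cnt Fam (fun D => N T G D = k) X : ℝ) := by
    intro X
    rw [← Nat.cast_sum, Nat.cast_inj]
    obtain ⟨s, hs⟩ : ∃ s : Finset ℕ, ∀ D, D ∈ s ↔ D ∈ Icc 1 X ∧ Fam D ∧
        ε ≤ |(N T G D : ℝ) / T.card - c| :=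
      ⟨(Icc 1 X).filter fun D => Fam D ∧ ε ≤ |(N T G D : ℝ) / T.card - c|, fun D => by
        rw [mem_filter]⟩
    have hs1 : cnt Fam (fun D => ε ≤ |(N T G D : ℝ) / T.card - c|) X = s.card := cnt_card hs
    rw [hs1, card_eq_sum_card_fiberwise (f := fun D => N T G D) (t := A) (fun D hD => by
        have hD' := (hs D).1 hD
        rw [mem_coe, hA, mem_filter, mem_range]
        exact ⟨Nat.lt_succ_of_le (N_le D), hD'.2.2⟩)]
    refine sum_congr rfl fun k hk => ?_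
    rw [hA, mem_filter] at hk
    refine (cnt_card fun D => ?_).symm
    rw [mem_filter, hs]
    constructor
    · rintro ⟨⟨h2, h3, -⟩, h5⟩
      exact ⟨h2, h3, h5⟩
    · rintro ⟨h2, h3, h5⟩
      exact ⟨⟨h2, h3, by rw [h5]; exact hk.2⟩, h5⟩
  have h2 : Tendsto (fun X : ℕ => (cnt Fam (fun D => ε ≤ |(N T G D : ℝ) / T.card - c|) X : ℝ) /
      (cnt Fam (fun _ => True) X : ℝ)) atTop
      (𝓝 (∑ k ∈ A, (T.card.choose k : ℝ) * c ^ k * (1 - c) ^ (T.card - k))) := by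
    simp only [h1, sum_div]
    exact tendsto_finsetSum _ fun k _ => law_eq h k
  have h3 := cheb (card_pos.2 hT) hc0 hc1 hε A (filter_subset _ _)
    (fun k hk => (mem_filter.1 hk).2)
  obtain ⟨X₀, hX₀⟩ := Filter.eventually_atTop.1 (h2.eventually (gt_mem_nhds
    (show ∑ k ∈ A, (T.card.choose k : ℝ) * c ^ k * (1 - c) ^ (T.card - k) <
      c * (1 - c) / (ε ^ 2 * T.card) + δ by linarith)))
  refine ⟨X₀, fun X hX => ?_⟩
  have h4 := hX₀ X hX
  rcases Nat.eq_zero_or_pos (cnt Fam (fun _ => True) X) with h5 | h5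
  · have h6 : cnt Fam (fun D => ε ≤ |(N T G D : ℝ) / T.card - c|) X = 0 :=
      Nat.le_zero.1 ((cnt_mono (fun _ _ _ => trivial) X).trans h5.le)
    rw [h6, h5]
    simp
  · have h6 : (0 : ℝ) < cnt Fam (fun _ => True) X := by exact_mod_cast h5
    exact ((div_lt_iff₀ h6).1 h4).le

end law

end Pool.Agent.R413.MQ.Bin
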