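import Pool.Agent.R413.MQ.Fld
import Pool.Agent.Results.MP_92892c_nt.FullClassTwoPartX49

/-!
# The criterion for the good pairs, and the L-functions over the fields
-/

set_option autoImplicit false

open NumberField IsDedekindDomain Filter Topology

namespace Pool.Agent.R413.MQ

open Pool.Agent.Results.MP_4a9ea6_nt.TwoPartTwistsX49 (Adm mat core two_iff)
open Pool.Agent.Results.MP_92892c_nt.FullClassTwoPartX49 (sel_iff RankZeroShaTwo)
open Pool.Agent.R426.QB (GZ Cz mq_one mq_seven bad_iff isLFunK_unique)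
open Pool.Agent.Y19.QT (Indep EK IsLFunK)

theorem adm_iff (D : ℕ) : (Squarefree D ∧ ∀ p : ℕ, p.Prime → p ∣ D → p % 4 = 1) ↔ Adm D := by
  constructor
  · rintro ⟨h1, h2⟩
    exact ⟨h1, fun p hp => h2 p (Nat.prime_of_mem_primeFactors hp) (Nat.dvd_of_mem_primeFactors hp)⟩
  · rintro ⟨h1, h2⟩
    exact ⟨h1, fun p hp hd => h2 p (hp.mem_primeFactors hd h1.ne_zero)⟩

/-- the descent decides by the matrix -/
theorem sel_det {D : ℕ} (h : Adm D) : RankZeroShaTwo D ↔ (mat D).det ≠ 0 := by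
  rw [sel_iff]
  exact (core h).2.2.2.1

theorem gc_iff (D : ℕ) : (Adm D ∧ RankZeroShaTwo D) ↔ Gc D :=
  and_congr_right fun h => sel_det h

/-- the fields of degree `2 ^ n` -/
theorem finrank_eq {n : ℕ} {d : Fin n → ℤ} (hd : Indep d) {K : Type} [Field K] [NumberField K]
    {x : Fin n → K} (hx : ∀ i, x i ^ 2 = (d i : K))
    (hK : IntermediateField.adjoin ℚ (Set.range x) = ⊤) : Module.finrank ℚ K = 2 ^ n := by
  have := Pool.Agent.Y73.QMQ1.gal_of hx hK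
  rw [← IsGalois.card_aut_eq_finrank]
  exact Pool.Agent.Y73.QMQ1.card_gal hd hx hK

/-- the number `q_v` of elements of the residue field of a finite place `v` of `K` -/
noncomputable def qv (K : Type) [Field K] (v : HeightOneSpectrum (𝓞 K)) : ℕ :=
  Nat.card (𝓞 K ⧸ v.asIdeal)

/-- `a_v = q_v + 1 - #E_M(k_v)`, that is `q_v` minus the number of affine points -/
noncomputable def av (K : Type) [Field K] (M : ℤ) (v : HeightOneSpectrum (𝓞 K)) : ℤ :=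
  (qv K v : ℤ) - Nat.card {z : (𝓞 K ⧸ v.asIdeal) × (𝓞 K ⧸ v.asIdeal) //
    z.2 ^ 2 = z.1 ^ 3 + ((-35 * M ^ 2 : ℤ) : 𝓞 K ⧸ v.asIdeal) * z.1 +
      ((-98 * M ^ 3 : ℤ) : 𝓞 K ⧸ v.asIdeal)}

open Classical in
/-- `F` is entire and is, for `Re s > 3/2`, the `L`-function of `E_M` over `K` without the Euler
factors at the places `v ∣ 14 M m` -/
def IsL (K : Type) [Field K] (M m : ℤ) (F : ℂ → ℂ) : Prop :=
  Differentiable ℂ F ∧ ∀ s : ℂ, (3 : ℝ) / 2 < s.re →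
    HasProd (fun v : HeightOneSpectrum (𝓞 K) =>
      if ((14 * M * m : ℤ) : 𝓞 K) ∈ v.asIdeal then 1 else
        (1 - (av K M v : ℂ) * (qv K v : ℂ) ^ (-s) + (qv K v : ℂ) ^ (1 - 2 * s))⁻¹) (F s)

open Classical in
theorem isL_iff (K : Type) [Field K] [NumberField K] (M m e : ℤ) (he : e = 1 ∨ e = -7)
    (G : ℂ → ℂ) : IsL K M m G ↔ IsLFunK K (-35 * M ^ 2) (-98 * M ^ 3) (m * e) G := by
  unfold IsL IsLFunK
  refine and_congr_right fun _ => forall_congr' fun s => forall_congr' fun _ => ?_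
  have h1 : (fun v : HeightOneSpectrum (𝓞 K) =>
      if ((14 * M * m : ℤ) : 𝓞 K) ∈ v.asIdeal then (1 : ℂ) else
        (1 - (av K M v : ℂ) * (qv K v : ℂ) ^ (-s) + (qv K v : ℂ) ^ (1 - 2 * s))⁻¹) =
      fun v : HeightOneSpectrum (𝓞 K) =>
      if ((2 * (4 * (-35 * M ^ 2) ^ 3 + 27 * (-98 * M ^ 3) ^ 2) * (m * e) : ℤ) : 𝓞 K) ∈ v.asIdeal
        then (1 : ℂ) else
        (1 - (av K M v : ℂ) * (qv K v : ℂ) ^ (-s) + (qv K v : ℂ) ^ (1 - 2 * s))⁻¹ := by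
    funext v
    by_cases hv : ((14 * M * m : ℤ) : 𝓞 K) ∈ v.asIdeal
    · rw [if_pos hv, if_pos ((bad_iff K M m e he v).1 hv)]
    · rw [if_neg hv, if_neg fun h => hv ((bad_iff K M m e he v).2 h)]
  rw [h1]
  rfl

/-- order and rank zero over `K` -/
theorem zero_of (K : Type) [Field K] [NumberField K] (M m e : ℤ) (he : e = 1 ∨ e = -7)
    (h : (∃ F : ℂ → ℂ, IsLFunK K (-35 * M ^ 2) (-98 * M ^ 3) (m * e) F ∧ F 1 ≠ 0) ∧
      Finite (EK K (-35 * M ^ 2) (-98 * M ^ 3))) :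
    Finite (EK K (-35 * M ^ 2) (-98 * M ^ 3)) ∧ (∃ F : ℂ → ℂ, IsL K M m F) ∧
      ∀ F : ℂ → ℂ, IsL K M m F → F 1 ≠ 0 := by
  obtain ⟨⟨F, hF, hF1⟩, hfin⟩ := h
  refine ⟨hfin, ⟨F, (isL_iff K M m e he F).2 hF⟩, fun G hG => ?_⟩
  rw [isLFunK_unique ((isL_iff K M m e he G).1 hG) hF]
  exact hF1

theorem gz_all {n : ℕ} {d : Fin n → ℤ} {M : ℤ} (h : GO d M) (T : Finset (Fin n)) :
    GZ (M * ∏ i ∈ T, d i) := by
  obtain ⟨D, h1, h2⟩ := h T
  exact gz_of h1 h2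

/-- **over the fields without `√-7`** -/
theorem field_one {n : ℕ} {d : Fin n → ℤ} {M : ℤ}
    (hd : ∀ T : Finset (Fin n), T.Nonempty → Nsq (∏ i ∈ T, d i)) (h : GO d M)
    (K : Type) [Field K] [NumberField K] {x : Fin n → K} (hx : ∀ i, x i ^ 2 = (d i : K))
    (hK : IntermediateField.adjoin ℚ (Set.range x) = ⊤) :
    Module.finrank ℚ K = 2 ^ n ∧ Finite (EK K (-35 * M ^ 2) (-98 * M ^ 3)) ∧
      (∃ F : ℂ → ℂ, IsL K M (∏ i, d i) F) ∧ ∀ F : ℂ → ℂ, IsL K M (∏ i, d i) F → F 1 ≠ 0 := by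
  have hind : Indep d := fun T hT => (hd T hT).1
  refine ⟨finrank_eq hind hx hK, zero_of K M _ 1 (Or.inl rfl) ?_⟩
  rw [mul_one]
  exact mq_one hind (gz_all h) K x hx hK

/-- **over the fields with `√-7`** -/
theorem field_seven {n : ℕ} {d : Fin n → ℤ} {M : ℤ}
    (hd : ∀ T : Finset (Fin n), T.Nonempty → Nsq (∏ i ∈ T, d i)) (h : GO d M)
    (K : Type) [Field K] [NumberField K] {x : Fin (n + 1) → K}
    (hx : ∀ i, x i ^ 2 = ((Fin.snoc d (-7) : Fin (n + 1) → ℤ) i : K))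
    (hK : IntermediateField.adjoin ℚ (Set.range x) = ⊤) :
    Module.finrank ℚ K = 2 ^ (n + 1) ∧ Finite (EK K (-35 * M ^ 2) (-98 * M ^ 3)) ∧
      (∃ F : ℂ → ℂ, IsL K M (∏ i, d i) F) ∧ ∀ F : ℂ → ℂ, IsL K M (∏ i, d i) F → F 1 ≠ 0 := by
  obtain ⟨g1, g2⟩ := mq_seven hd (gz_all h)
  refine ⟨finrank_eq g1 hx hK, zero_of K M _ (-7) (Or.inr rfl) ?_⟩
  have h1 := mq_one g1 g2 K x hx hK
  rwa [Fin.prod_snoc] at h1

end Pool.Agent.R413.MQ
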