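import Pool.Agent.R413.MQ.Iso

/-!
# The characters of a multiquadratic field and the equivariant conjecture with both sides zero
-/

set_option autoImplicit false

open NumberField WeierstrassCurve Filter Topology

namespace Pool.Agent.R413.MQ.Art

open Pool.Agent.R426.QB (Cz GZ prod_symmDiff isSquare_of_mul)
open Pool.Agent.Y73.QMQ1 (gal_of)
open Pool.Agent.Results.MP_4a9ea6_nt.TwoPartTwistsX49 (Adm mat two_iff)

variable {F : Type} [Field F] [NumberField F] {n : ℕ} {d : Fin n → ℤ} {x : Fin n → F}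

/-- `χ(σ) = ∏_{i ∈ T} σ(√d_i) / √d_i` -/
def CutOut (x : Fin n → F) (T : Finset (Fin n)) (χ : (F ≃ₐ[ℚ] F) →* ℂˣ) : Prop :=
  ∀ σ : F ≃ₐ[ℚ] F, IsSign (χ σ) (σ (∏ i ∈ T, x i)) (∏ i ∈ T, x i)

theorem root_prod (hx : ∀ i, x i ^ 2 = (d i : F)) (T : Finset (Fin n)) :
    (∏ i ∈ T, x i) ^ 2 = ((∏ i ∈ T, d i : ℤ) : F) := by
  rw [← Finset.prod_pow, Finset.prod_congr rfl fun i _ => hx i]
  push_cast
  rfl

/-- two square roots with the same character -/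
theorem same_sq (hgal : IsGalois ℚ F) {χ : (F ≃ₐ[ℚ] F) →* ℂˣ} {a b : ℤ} {r s : F} (ha : a ≠ 0)
    (hb : b ≠ 0) (hr : r ^ 2 = (a : F)) (hs : s ^ 2 = (b : F)) (h1 : ∀ σ, IsSign (χ σ) (σ r) r)
    (h2 : ∀ σ, IsSign (χ σ) (σ s) s) : IsSquare (a * b) := by
  have haF : (a : F) ≠ 0 := by exact_mod_cast ha
  have hbF : (b : F) ≠ 0 := by exact_mod_cast hb
  have hfix : ∀ σ : F ≃ₐ[ℚ] F, σ (r * s) = r * s := by
    intro σ
    have hne : (1 : ℂˣ) ≠ -1 := by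
      intro h
      have h4 := congrArg (fun z : ℂˣ => (z : ℂ)) h
      simp only [Units.val_one, Units.val_neg] at h4
      norm_num at h4
    rw [map_mul]
    rcases h1 σ with ⟨e1, e2⟩ | ⟨e1, e2⟩ <;> rcases h2 σ with ⟨e3, e4⟩ | ⟨e3, e4⟩
    · rw [e2, e4]
    · exact absurd (e1.symm.trans e3) hne
    · exact absurd (e3.symm.trans e1) hne
    · rw [e2, e4]; ring
  obtain ⟨q, hq⟩ := (IsGalois.mem_range_algebraMap_iff_fixed (F := ℚ) (r * s)).2 hfix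
  have hq' : (q : F) = r * s := by rw [← hq, eq_ratCast]
  have h3 : ((a * b : ℤ) : ℚ) = q * q := by
    have h4 : (((a * b : ℤ) : ℚ) : F) = ((q * q : ℚ) : F) := by
      push_cast
      rw [hq', ← hr, ← hs]
      ring
    exact_mod_cast h4
  exact Rat.isSquare_intCast_iff.1 ⟨q, h3⟩

/-- the characters -/
theorem cut_unique (hd : ∀ T : Finset (Fin n), T.Nonempty → ¬ IsSquare (∏ i ∈ T, d i))
    (hx : ∀ i, x i ^ 2 = (d i : F)) (hK : IntermediateField.adjoin ℚ (Set.range x) = ⊤)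
    (χ : (F ≃ₐ[ℚ] F) →* ℂˣ) : ∃! T : Finset (Fin n), CutOut x T χ := by
  classical
  have hgal := gal_of hx hK
  have h0 : ∀ i, d i ≠ 0 := Pool.Agent.Y73.QMQ1.d_ne_zero hd
  have hp0 : ∀ T : Finset (Fin n), (∏ i ∈ T, d i) ≠ 0 := fun T =>
    Finset.prod_ne_zero_iff.2 fun i _ => h0 i
  obtain ⟨T, hT⟩ := exists_cut hx h0 hK χ
  refine ⟨T, hT, fun T' hT' => ?_⟩
  by_contra hne
  have hne' : (symmDiff T' T).Nonempty := by
    rw [Finset.nonempty_iff_ne_empty]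
    intro h
    exact hne (symmDiff_eq_bot.1 h)
  obtain ⟨w, hw⟩ := same_sq hgal (hp0 T') (hp0 T) (root_prod hx T') (root_prod hx T) hT' hT
  rw [prod_symmDiff] at hw
  exact hd _ hne' (isSquare_of_mul (y := ∏ i ∈ T' ∩ T, d i) (z := w) (hp0 _) (by rw [hw]; ring))

theorem cut_exists (h0 : ∀ i, d i ≠ 0) (hx : ∀ i, x i ^ 2 = (d i : F)) (T : Finset (Fin n)) :
    ∃ χ : (F ≃ₐ[ℚ] F) →* ℂˣ, CutOut x T χ := by
  have hr0 : (∏ i ∈ T, x i) ≠ 0 := by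
    refine Finset.prod_ne_zero_iff.2 fun i _ h => ?_
    have h1 := hx i
    rw [h, zero_pow two_ne_zero] at h1
    exact h0 i (by exact_mod_cast h1.symm)
  exact exists_char hr0 (root_prod hx T)

/-- **the equivariant conjecture for one character, both sides zero** -/
theorem bsd_chr {M : ℤ} {T : Finset (Fin n)} {χ : (F ≃ₐ[ℚ] F) →* ℂˣ} (h0 : ∀ i, d i ≠ 0)
    (hx : ∀ i, x i ^ 2 = (d i : F)) (hK : IntermediateField.adjoin ℚ (Set.range x) = ⊤)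
    (hT : CutOut x T χ) {D : ℕ} (hD : Gc D) (hz : Cz (M * ∏ i ∈ T, d i) D) :
    (∀ p : ℕ, p.Prime → ¬ (p : ℤ) ∣ 14 * M * ∏ i, d i → ∀ σ : F ≃ₐ[ℚ] F, IsFrobenius p σ →
      ((ap D p : ℤ) : ℂ) = ((χ σ : ℂˣ) : ℂ) * ((ap M p : ℤ) : ℂ)) ∧ mult χ (curve M) = 0 := by
  have hgal := gal_of hx hK
  have hdvd : (∏ i ∈ T, d i) ∣ ∏ i, d i :=
    Finset.prod_dvd_prod_of_subset T Finset.univ d (Finset.subset_univ T)
  have hT0 : (∏ i ∈ T, d i) ≠ 0 := Finset.prod_ne_zero_iff.2 fun i _ => h0 i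
  constructor
  · intro p hp hpd σ hσ
    have hp2 : p ≠ 2 := by
      rintro rfl
      exact hpd ⟨7 * M * ∏ i, d i, by push_cast; ring⟩
    have hpT : ¬ (p : ℤ) ∣ ∏ i ∈ T, d i := fun h => hpd ((h.trans hdvd).mul_left _)
    have hpz : ¬ (p : ℤ) ∣ 14 * (M * ∏ i ∈ T, d i) := by
      intro h
      apply hpd
      refine h.trans ?_
      rw [← mul_assoc]
      exact mul_dvd_mul_left _ hdvd
    rw [frob_symbol (root_prod hx T) hT hp hp2 hpT hσ, ← ap_cz hD.1 hz hp hpz,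
      ap_mul M _ hp hp2 hpT]
    push_cast
    ring
  · exact mult_zero hgal hT0 (root_prod hx T) hT (gz_of hD hz).zb.2

/-- the analytic rank -/
theorem an_of {D : ℕ} (h : Gc D) : ∃ Λ : ℂ → ℂ, Differentiable ℂ Λ ∧ (∀ s : ℂ, 2 < s.re →
    Λ s = (Pool.Agent.Results.MP_4a9ea6_nt.TwoPartTwistsX49.E D).LSeries s) ∧ Λ 1 ≠ 0 := by
  obtain ⟨-, -, Λ, h1, h2, h3, -⟩ := (two_iff h.1).2 h.2
  exact ⟨Λ, h1, h2, h3⟩

end Pool.Agent.R413.MQ.Art
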