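import Pool.Agent.R413.SM.Law
import Pool.Agent.R426.QB.Mq

/-!
# The twists of `X_0(49)` by the numbers of the full class over multiquadratic fields

Adaptation of the file `Pool/Agent/R426/QB/Fld.lean` of helper426 (primes `1 mod 8` split and `5 mod 8`
inert) to the class of all primes `1 mod 4`.
-/

set_option autoImplicit false

open Filter Topology

namespace Pool.Agent.R413.MQ

open Finset
open Pool.Agent.Y703.CQ (c2)
open Pool.Agent.R426.QB (Cz GZ prod_symmDiff isSquare_of_mul sqf_unique_nat prod_snoc_iff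
  prod_snoc_ne tendsto_exc)
open Pool.Agent.R413.SQ.Joint (tw adm_tw ac_tw tw_pf num law low low_of num_true)
open Pool.Agent.Results.MP_4a9ea6_nt.TwoPartTwistsX49 (Adm mat inq spl mat_eq union_eq split inert)

/-- no square and no square times `-7` -/
def Nsq (z : ℤ) : Prop := ¬ IsSquare z ∧ ¬ IsSquare (-7 * z)

/-- the good numbers of the class -/
def Gc (D : ℕ) : Prop := Adm D ∧ (mat D).det ≠ 0

/-- `z` is up to squares and to the factor `-7` in the class -/
def AcS (z : ℤ) : Prop := ∃ D : ℕ, Adm D ∧ Cz z D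

/-- `M` is good over the field -/
def GO {n : ℕ} (d : Fin n → ℤ) (M : ℤ) : Prop := ∀ T : Finset (Fin n), ∃ D : ℕ, Gc D ∧
  Cz (M * ∏ i ∈ T, d i) D

theorem gz_of {D : ℕ} {z : ℤ} (h : Gc D) (hz : Cz z D) : GZ z := by
  obtain ⟨h1, h2⟩ := h
  refine ⟨inert D, split D, inq h1, spl h1, by rw [mat_eq]; exact h2, ?_⟩
  rwa [union_eq, Nat.prod_primeFactors_of_squarefree h1.1]

theorem adm_one : Adm 1 := ⟨squarefree_one, by simp⟩

/-- the product of two classes -/
theorem cz_tw {y z : ℤ} {M D : ℕ} (hM : Adm M) (hD : Adm D) (hy : Cz y M) (hz : Cz z D) :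
    Cz (y * z) (tw M D) := by
  rw [(ac_tw hM hD).1, symmDiff_comm]
  refine Cz.mul (fun p hp => ?_) ?_ ?_
  · exact (Nat.prime_of_mem_primeFactors (Finset.mem_inter.1 hp).1).ne_zero
  · rwa [Nat.prod_primeFactors_of_squarefree hM.1]
  · rwa [Nat.prod_primeFactors_of_squarefree hD.1]

theorem cz_self (D : ℕ) : Cz (D : ℤ) D := ⟨1, one_ne_zero, Or.inl (by ring)⟩

theorem num_congr {Q R : ℕ → Prop} (h : ∀ D, Adm D → (Q D ↔ R D)) (X : ℕ) : num Q X = num R X := by
  classical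
  unfold num
  exact congrArg Finset.card (Finset.filter_congr fun D _ => and_congr_right fun hD => h D hD)

/-- the square classes -/
theorem exists_U {n : ℕ} {d : Fin n → ℤ} (hd : ∀ T : Finset (Fin n), T.Nonempty → Nsq (∏ i ∈ T, d i))
    (ha : ∀ i, AcS (d i)) {N : ℤ} (hN : AcS N) :
    ∃ U : Finset (Fin n) → ℕ, Function.Injective U ∧ ∀ T, Adm (U T) ∧
      Cz (N * ∏ i ∈ T, d i) (U T) := by
  classical
  have h1 : ∀ T : Finset (Fin n), ∃ S : ℕ, Adm S ∧ Cz (N * ∏ i ∈ T, d i) S := by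
    intro T
    induction T using Finset.induction_on with
    | empty =>
      obtain ⟨D, hD, hz⟩ := hN
      refine ⟨D, hD, ?_⟩
      rwa [Finset.prod_empty, mul_one]
    | insert a T haT ih =>
      obtain ⟨S, hS, hz⟩ := ih
      obtain ⟨D, hD, hzD⟩ := ha a
      refine ⟨tw D S, adm_tw hD hS, ?_⟩
      have h2 : N * ∏ i ∈ insert a T, d i = d a * (N * ∏ i ∈ T, d i) := by
        rw [Finset.prod_insert haT]
        ring
      rw [h2]
      exact cz_tw hD hS hzD hz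
  choose U hU using h1
  refine ⟨U, fun T T' hTT => ?_, hU⟩
  by_contra hne
  obtain ⟨hS, hz⟩ := hU T
  obtain ⟨hS', hz'⟩ := hU T'
  rw [← hTT] at hz' hS'
  have hne' : (symmDiff T T').Nonempty := by
    rw [Finset.nonempty_iff_ne_empty]
    intro h
    exact hne (symmDiff_eq_bot.1 h)
  have hD0 : U T ≠ 0 := hS.1.ne_zero
  have hD0' : ((U T : ℕ) : ℤ) ≠ 0 := by exact_mod_cast hD0
  have hz0 := hz.ne hD0
  have hz0' := hz'.ne hD0
  have hi0 : (∏ i ∈ T ∩ T', d i) ≠ 0 := by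
    have h2 : (∏ i ∈ T, d i) ≠ 0 := right_ne_zero_of_mul hz0
    rw [Finset.prod_ne_zero_iff] at h2 ⊢
    exact fun i hi => h2 i (Finset.mem_inter.1 hi).1
  have hN0 : N ≠ 0 := left_ne_zero_of_mul hz0
  have hprod := prod_symmDiff d T T'
  obtain ⟨h3, h4⟩ := hd _ hne'
  obtain ⟨k, hk, he⟩ := hz
  obtain ⟨k', hk', he'⟩ := hz'
  set x := ∏ i ∈ symmDiff T T', d i with hx
  set y := ∏ i ∈ T ∩ T', d i with hy
  have e1 : (N * ∏ i ∈ T, d i) * (N * ∏ i ∈ T', d i) = x * (N * y) ^ 2 := by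
    linear_combination N ^ 2 * hprod
  rcases he with he | he <;> rcases he' with he' | he' <;> rw [he, he'] at e1
  · exact h3 (isSquare_of_mul (y := N * y) (z := ((U T : ℕ) : ℤ) * k * k')
      (mul_ne_zero hN0 hi0) (by rw [← e1]; ring))
  · exact h4 (isSquare_of_mul (y := N * y) (z := 7 * (((U T : ℕ) : ℤ) * k * k'))
      (mul_ne_zero hN0 hi0) (by linear_combination (7 : ℤ) * e1))
  · exact h4 (isSquare_of_mul (y := N * y) (z := 7 * (((U T : ℕ) : ℤ) * k * k'))
      (mul_ne_zero hN0 hi0) (by linear_combination (7 : ℤ) * e1))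
  · exact h3 (isSquare_of_mul (y := N * y) (z := 7 * (((U T : ℕ) : ℤ) * k * k'))
      (mul_ne_zero hN0 hi0) (by rw [← e1]; ring))

/-- the number of a twist is unique -/
theorem good_iff_tw {n : ℕ} {d : Fin n → ℤ} {N : ℤ} {U : Finset (Fin n) → ℕ}
    (hU : ∀ T, Adm (U T) ∧ Cz (N * ∏ i ∈ T, d i) (U T)) {D : ℕ} (hD : Adm D) (T : Finset (Fin n)) :
    (∃ D' : ℕ, Gc D' ∧ Cz (N * D * ∏ i ∈ T, d i) D') ↔ (mat (tw (U T) D)).det ≠ 0 := by
  have h1 : Cz (N * D * ∏ i ∈ T, d i) (tw (U T) D) := by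
    have e : N * D * ∏ i ∈ T, d i = (N * ∏ i ∈ T, d i) * (D : ℤ) := by ring
    rw [e]
    exact cz_tw (hU T).1 hD (hU T).2 (cz_self D)
  have h2 := adm_tw (hU T).1 hD
  constructor
  · rintro ⟨D', hD', hz⟩
    have h6 := hz.unique hD'.1.1 h2.1 h1
    rw [← h6]
    exact hD'.2
  · intro h
    exact ⟨_, ⟨h2, h⟩, h1⟩

/-- **the pattern over a field** -/
theorem prop_pattern {n : ℕ} {d : Fin n → ℤ}
    (hd : ∀ T : Finset (Fin n), T.Nonempty → Nsq (∏ i ∈ T, d i)) (ha : ∀ i, AcS (d i))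
    {N : ℤ} (hN : AcS N) (V : Finset (Finset (Fin n))) :
    Tendsto (fun X : ℕ => (num (fun D => ∀ T : Finset (Fin n),
        ((∃ D' : ℕ, Gc D' ∧ Cz (N * D * ∏ i ∈ T, d i) D') ↔ T ∈ V)) X : ℝ) /
      (num (fun _ => True) X : ℝ)) atTop (𝓝 (c2 ^ V.card * (1 - c2) ^ (2 ^ n - V.card))) := by
  classical
  obtain ⟨U, hinj, hU⟩ := exists_U hd ha hN
  have hcard : (univ.image U).card = 2 ^ n := by
    rw [Finset.card_image_of_injective _ hinj, Finset.card_univ, Fintype.card_finset,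
      Fintype.card_fin]
  have hcV : (V.image U).card = V.card := Finset.card_image_of_injective _ hinj
  have hsub : V.image U ⊆ univ.image U := Finset.image_subset_image (Finset.subset_univ V)
  have h := law (T := univ.image U) (V := V.image U) (fun M hM => by
    obtain ⟨T, -, rfl⟩ := Finset.mem_image.1 hM
    exact (hU T).1) hsub
  rw [hcV, Finset.card_sdiff_of_subset hsub, hcard, hcV] at h
  refine h.congr fun X => ?_
  have e1 : num (fun D => ∀ M ∈ univ.image U, ((mat (tw M D)).det ≠ 0 ↔ M ∈ V.image U)) X =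
      num (fun D => ∀ T : Finset (Fin n),
        ((∃ D' : ℕ, Gc D' ∧ Cz (N * D * ∏ i ∈ T, d i) D') ↔ T ∈ V)) X := by
    refine num_congr (fun D hD => ?_) X
    constructor
    · intro h T
      rw [good_iff_tw hU hD T, h (U T) (Finset.mem_image_of_mem U (Finset.mem_univ T)),
        Finset.mem_image]
      constructor
      · rintro ⟨T', hT', he⟩
        rwa [← hinj he]
      · intro hT
        exact ⟨T, hT, rfl⟩
    · intro h M hM
      obtain ⟨T, -, rfl⟩ := Finset.mem_image.1 hM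
      rw [← good_iff_tw hU hD T, h T, Finset.mem_image]
      constructor
      · intro hT
        exact ⟨T, hT, rfl⟩
      · rintro ⟨T', hT', he⟩
        rwa [← hinj he]
  rw [e1]

/-- **the proportion over a field** -/
theorem prop_field {n : ℕ} {d : Fin n → ℤ}
    (hd : ∀ T : Finset (Fin n), T.Nonempty → Nsq (∏ i ∈ T, d i)) (ha : ∀ i, AcS (d i))
    {N : ℤ} (hN : AcS N) :
    Tendsto (fun X : ℕ => (num (fun D => GO d (N * D)) X : ℝ) / (num (fun _ => True) X : ℝ))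
      atTop (𝓝 (c2 ^ 2 ^ n)) := by
  classical
  have h := prop_pattern hd ha hN Finset.univ
  rw [Finset.card_univ, Fintype.card_finset, Fintype.card_fin, Nat.sub_self, pow_zero, mul_one] at h
  refine h.congr fun X => ?_
  have e1 : num (fun D => ∀ T : Finset (Fin n),
      ((∃ D' : ℕ, Gc D' ∧ Cz (N * D * ∏ i ∈ T, d i) D') ↔
        T ∈ (Finset.univ : Finset (Finset (Fin n))))) X = num (fun D => GO d (N * D)) X := by
    refine num_congr (fun D hD => ?_) X
    unfold GO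
    simp only [Finset.mem_univ, iff_true]
  rw [e1]

/-- the class is infinite -/
theorem adm_infinite : {D : ℕ | 1 ≤ D ∧ Adm D}.Infinite := by
  have h1 : IsUnit ((1 : ℕ) : ZMod 4) := (ZMod.isUnit_iff_coprime 1 4).2 (by norm_num)
  have hinf := Nat.infinite_setOfPred_prime_and_eq_mod h1
  refine hinf.mono ?_
  rintro q ⟨hq, hqa⟩
  have h4 : q % 4 = 1 % 4 := (ZMod.natCast_eq_natCast_iff' _ _ _).1 hqa
  refine ⟨hq.one_lt.le, hq.squarefree, ?_⟩
  rw [hq.primeFactors]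
  intro p hp
  rw [Finset.mem_singleton.1 hp]
  omega

theorem GO_snoc {n : ℕ} (d : Fin n → ℤ) (M D : ℤ) :
    GO (Fin.snoc d D : Fin (n + 1) → ℤ) M ↔ (GO d M ∧ GO d (M * D)) := by
  unfold GO
  rw [prod_snoc_iff d D (fun z => ∃ D' : ℕ, Gc D' ∧ Cz (M * z) D')]
  simp only [mul_assoc]

theorem GO.acS {n : ℕ} {d : Fin n → ℤ} {M : ℤ} (h : GO d M) : AcS M := by
  obtain ⟨D, hD, hz⟩ := h ∅
  rw [Finset.prod_empty, mul_one] at hz
  exact ⟨D, hD.1, hz⟩

theorem int_of_rat {x y z : ℤ} {D : ℕ} (hD : Squarefree D) (hy : y ≠ 0) (hx : x ≠ 0)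
    (h : x * y ^ 2 = D * z ^ 2) : ∃ k : ℤ, k ≠ 0 ∧ x = D * k ^ 2 := by
  have hD0 : (D : ℤ) ≠ 0 := by exact_mod_cast hD.ne_zero
  have hz : z ≠ 0 := by
    rintro rfl
    apply mul_ne_zero hx (pow_ne_zero 2 hy)
    rw [h]
    ring
  -- `D x` is a square
  have h1 : IsSquare ((D : ℤ) * x) := isSquare_of_mul (y := y) (z := D * z) hy (by
    linear_combination (D : ℤ) * h)
  obtain ⟨w, hw⟩ := h1
  have h2 : (D : ℤ) ∣ w ^ 2 := ⟨x, by rw [pow_two, ← hw]⟩
  have h3 : (D : ℤ) ∣ w := by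
    have h4 : D ∣ w.natAbs ^ 2 := by
      rw [← Int.natAbs_pow]
      exact Int.natCast_dvd.1 h2
    exact Int.natCast_dvd.2 ((hD.dvd_pow_iff_dvd
      two_ne_zero).1 h4)
  obtain ⟨k, rfl⟩ := h3
  refine ⟨k, ?_, ?_⟩
  · rintro rfl
    rw [mul_zero, mul_zero] at hw
    exact mul_ne_zero hD0 hx hw
  · apply mul_left_cancel₀ hD0
    rw [hw]
    ring

/-- the numbers of a good pair are in the class up to squares -/
theorem GO.acS_d {n : ℕ} {d : Fin n → ℤ} {M : ℤ} (h : GO d M) : ∀ i, AcS (d i) := by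
  intro i
  obtain ⟨D, hD, hz⟩ := h ∅
  obtain ⟨D', hD', hz'⟩ := h {i}
  rw [Finset.prod_empty, mul_one] at hz
  rw [Finset.prod_singleton] at hz'
  have hM0 := hz.ne hD.1.1.ne_zero
  have hd0 : d i ≠ 0 := right_ne_zero_of_mul (hz'.ne hD'.1.1.ne_zero)
  have h1 := cz_tw hD.1 hD'.1 hz hz'
  have hS := adm_tw hD.1 hD'.1
  have hsq := hS.1
  refine ⟨tw D D', hS, ?_⟩
  obtain ⟨k, hk, he | he⟩ := h1
  · obtain ⟨l, hl, hl'⟩ := int_of_rat hsq hM0 hd0 (x := d i) (y := M) (z := k) (by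
      linear_combination he)
    exact ⟨l, hl, Or.inl hl'⟩
  · -- `-7 d i` is `D` up to squares
    obtain ⟨l, hl, hl'⟩ := int_of_rat hsq hM0 (mul_ne_zero (by norm_num) hd0) (x := -7 * d i)
      (y := M) (z := 7 * k) (by linear_combination (-7 : ℤ) * he)
    -- `7 ∣ l`
    have h7 : ¬ (7 : ℤ) ∣ ((tw D D' : ℕ) : ℤ) := by
      intro h7
      have h8 : 7 ∣ tw D D' := by exact_mod_cast h7
      have h9 := hS.2 7 ((by norm_num : Nat.Prime 7).mem_primeFactors h8 hsq.ne_zero)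
      omega
    have hp7 : Prime (7 : ℤ) := by norm_num
    have h10 : (7 : ℤ) ∣ l := by
      have h11 : (7 : ℤ) ∣ ((tw D D' : ℕ) : ℤ) * l ^ 2 := ⟨-d i, by rw [← hl']; ring⟩
      rcases hp7.dvd_or_dvd h11 with h12 | h12
      · exact absurd h12 h7
      · exact hp7.dvd_of_dvd_pow h12
    obtain ⟨m, rfl⟩ := h10
    refine ⟨m, by rintro rfl; exact hl (mul_zero _), Or.inr ?_⟩
    have h13 : (-7 : ℤ) ≠ 0 := by norm_num
    apply mul_left_cancel₀ h13
    rw [hl']
    ring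

/-- **the proportion of the quadratic extensions of a good field** -/
theorem prop_ext {n : ℕ} {d : Fin n → ℤ}
    (hd : ∀ T : Finset (Fin n), T.Nonempty → Nsq (∏ i ∈ T, d i)) {M : ℤ} (hM : GO d M) :
    Tendsto (fun X : ℕ => (num (fun D => (∀ T : Finset (Fin (n + 1)), T.Nonempty →
          Nsq (∏ i ∈ T, (Fin.snoc d (D : ℤ) : Fin (n + 1) → ℤ) i)) ∧
          GO (Fin.snoc d (D : ℤ) : Fin (n + 1) → ℤ) M) X : ℝ) / (num (fun _ => True) X : ℝ))
      atTop (𝓝 (c2 ^ 2 ^ n)) := by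
  classical
  have ha := hM.acS_d
  obtain ⟨U, hinj, hU⟩ := exists_U hd ha (N := 1) ⟨1, adm_one, 1, one_ne_zero,
    Or.inl (by norm_num)⟩
  have h := tendsto_exc (fun D : ℕ => Adm D ∧ True) (fun D : ℕ => Adm D ∧ GO d (M * D))
    (fun D : ℕ => Adm D ∧ ((∀ T : Finset (Fin (n + 1)), T.Nonempty →
          Nsq (∏ i ∈ T, (Fin.snoc d (D : ℤ) : Fin (n + 1) → ℤ) i)) ∧
          GO (Fin.snoc d (D : ℤ) : Fin (n + 1) → ℤ) M))
    (univ.image U) (by simp only [and_true]; exact adm_infinite)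
    (fun D h => ⟨h.1, trivial⟩) (fun D h => ⟨h.1, ((GO_snoc d M _).1 h.2.2).2⟩)
    (fun D h hDE => ?_) (c := c2 ^ 2 ^ n) ?_
  · refine h.congr fun X => ?_
    unfold num
    congr!
  · refine ⟨h.1, prod_snoc_ne hd fun T => ?_, (GO_snoc d M _).2 ⟨hM, h.2⟩⟩
    -- the number is not a square
    have hD := h.1
    have key : ∀ e : ℤ, (e = 1 ∨ e = -7) → ¬ IsSquare (e * ((D : ℤ) * ∏ i ∈ T, d i)) := by
      rintro e he ⟨w, hw⟩
      obtain ⟨hT, hz⟩ := hU T
      rw [one_mul] at hz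
      have hz0 := hz.ne hT.1.ne_zero
      have hD0 : (D : ℤ) ≠ 0 := by exact_mod_cast hD.1.ne_zero
      have he0 : e ≠ 0 := by rcases he with h | h <;> rw [h] <;> norm_num
      have hw0 : w ≠ 0 := by
        rintro rfl
        rw [mul_zero] at hw
        exact mul_ne_zero he0 (mul_ne_zero hD0 hz0) hw
      -- `∏ d i · D²` is `e D` up to squares
      have h1 : Cz ((∏ i ∈ T, d i) * (e * D) ^ 2) D := by
        rcases he with rfl | rfl
        · exact ⟨w, hw0, Or.inl (by linear_combination (D : ℤ) * hw)⟩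
        · exact ⟨w, hw0, Or.inr (by linear_combination (-7 * D : ℤ) * hw)⟩
      have h2 : Cz ((∏ i ∈ T, d i) * (e * D) ^ 2) (U T) := by
        obtain ⟨k, hk, h3 | h3⟩ := hz
        · exact ⟨k * (e * D), mul_ne_zero hk (mul_ne_zero he0 hD0), Or.inl (by rw [h3]; ring)⟩
        · exact ⟨k * (e * D), mul_ne_zero hk (mul_ne_zero he0 hD0), Or.inr (by rw [h3]; ring)⟩
      have h3 := h1.unique hD.1 hT.1 h2
      exact hDE (Finset.mem_image.2 ⟨T, Finset.mem_univ _, h3.symm⟩)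
    constructor
    · have := key 1 (Or.inl rfl)
      rwa [one_mul] at this
    · exact key (-7) (Or.inr rfl)
  · refine (prop_field hd ha hM.acS).congr fun X => ?_
    unfold num
    congr!

end Pool.Agent.R413.MQ
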