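import Pool.Agent.R413.MQ.Bsd
import Pool.Agent.Y705.QT.Pts

/-!
# The characters of the Galois group of a multiquadratic field, Frobenius elements, twists

Adaptation to `ℚ` of parts of the starting files `Pool/Agent/Y697/AR/Chr.lean` and
`Pool/Agent/Results/MP_26073e_nt/ProportionArtinTwists.lean` (Gaussian integers).
-/

set_option autoImplicit false

open NumberField Filter Topology

namespace Pool.Agent.R413.MQ.Art

open Pool.Agent.R426.QB (Cz)
open Pool.Agent.Y73.QMQ1 (gal_of gal_inj not_mem_both)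
open Pool.Agent.Results.MP_4a9ea6_nt.TwoPartTwistsX49 (Adm)

/-- `a_p` of the twist by `M` -/
noncomputable def ap (M : ℤ) (p : ℕ) : ℤ :=
  (p : ℤ) - Nat.card {z : ZMod p × ZMod p // z.2 ^ 2 = z.1 ^ 3 + ((-35 * M ^ 2 : ℤ) : ZMod p) * z.1 +
    ((-98 * M ^ 3 : ℤ) : ZMod p)}

theorem ap_mul (M d : ℤ) {p : ℕ} (hp : p.Prime) (hp2 : p ≠ 2) (hd : ¬ (p : ℤ) ∣ d) :
    ap (M * d) p = jacobiSym d p * ap M p := by
  have h := Pool.Agent.Y705.QT.ap_twist (-35 * M ^ 2) (-98 * M ^ 3) d p hp hp2 hd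
  have e1 : -35 * M ^ 2 * d ^ 2 = -35 * (M * d) ^ 2 := by ring
  have e2 : -98 * M ^ 3 * d ^ 3 = -98 * (M * d) ^ 3 := by ring
  rw [e1, e2] at h
  unfold Pool.Agent.H306R2.RZ.js at h
  exact_mod_cast h

theorem ap_sq (M k : ℤ) {p : ℕ} (hp : p.Prime) (hp2 : p ≠ 2) (hk : ¬ (p : ℤ) ∣ k) :
    ap (M * k ^ 2) p = ap M p := by
  have hpi := Nat.prime_iff_prime_int.1 hp
  rw [ap_mul M (k ^ 2) hp hp2 fun h => hk (hpi.dvd_of_dvd_pow h), jacobiSym.pow_left]
  have h1 : jacobiSym k p ^ 2 = 1 := jacobiSym.sq_one (by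
    rw [Int.gcd_eq_natAbs, Nat.gcd_comm]
    exact (Nat.Prime.coprime_iff_not_dvd hp).2 fun h => hk (Int.natCast_dvd.2 h))
  rw [h1, one_mul]

theorem ap_seven {D : ℕ} (hD : Adm D) {p : ℕ} (hp : p.Prime) (hp2 : p ≠ 2) (hp7 : p ≠ 7)
    (hpD : ¬ p ∣ D) : ap (-7 * D) p = ap D p := by
  have hS : ∀ q ∈ D.primeFactors, Pool.Agent.Y698.SG.Gp q := fun q hq =>
    ⟨Nat.prime_of_mem_primeFactors hq, hD.2 q hq⟩
  have hpS : p ∉ D.primeFactors := fun h => hpD (Nat.dvd_of_mem_primeFactors h)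
  have hprod : ∏ q ∈ D.primeFactors, q = D := Nat.prod_primeFactors_of_squarefree hD.1
  have h1 := Pool.Agent.R426.QB.trace_short hp hp2 hp7 hS hpS (Or.inl rfl)
  have h2 := Pool.Agent.R426.QB.trace_short hp hp2 hp7 hS hpS (Or.inr rfl)
  rw [hprod] at h1 h2
  have h3 : ((ap (-7 * D) p : ℤ) : ℂ) = ((ap D p : ℤ) : ℂ) := by
    unfold ap
    push_cast at h1 h2 ⊢
    rw [h2, h1]
  exact_mod_cast h3

/-- the traces of a number which is `D` up to squares and to the factor `-7` -/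
theorem ap_cz {z : ℤ} {D : ℕ} (hD : Adm D) (h : Cz z D) {p : ℕ} (hp : p.Prime)
    (hz : ¬ (p : ℤ) ∣ 14 * z) : ap z p = ap D p := by
  have hpi := Nat.prime_iff_prime_int.1 hp
  have hp2 : p ≠ 2 := by
    rintro rfl
    exact hz ⟨7 * z, by push_cast; ring⟩
  have hp7 : p ≠ 7 := by
    rintro rfl
    exact hz ⟨2 * z, by push_cast; ring⟩
  have hpz : ¬ (p : ℤ) ∣ z := fun h => hz (h.mul_left _)
  obtain ⟨k, hk, rfl | rfl⟩ := h
  · have hpk : ¬ (p : ℤ) ∣ k := fun h => hpz ((h.trans (dvd_pow_self k two_ne_zero)).mul_left _)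
    exact ap_sq _ _ hp hp2 hpk
  · have hpk : ¬ (p : ℤ) ∣ k := fun h => hpz ((h.trans (dvd_pow_self k two_ne_zero)).mul_left _)
    have hpD : ¬ p ∣ D := fun h => hpz (((Int.natCast_dvd_natCast.2 h).mul_left _).mul_right _)
    rw [ap_sq _ _ hp hp2 hpk]
    exact ap_seven hD hp hp2 hp7 hpD

variable {F : Type} [Field F] [NumberField F]

/-- `σ` is a Frobenius element of a prime `w` of `F` above `p`: `σ x ≡ x ^ p` modulo `w`. -/
def IsFrobenius (p : ℕ) (σ : F ≃ₐ[ℚ] F) : Prop :=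
  ∃ w : Ideal (𝓞 F), w.IsPrime ∧ (p : 𝓞 F) ∈ w ∧ ∀ x : 𝓞 F, ∃ y ∈ w, (y : F) = σ x - (x : F) ^ p

/-- `x = c y`, where `c = 1` or `c = -1`. -/
def IsSign (c : ℂˣ) (x y : F) : Prop := (c = 1 ∧ x = y) ∨ (c = -1 ∧ x = -y)

/-- the values of a character at the Frobenius elements -/
theorem frob_symbol {χ : (F ≃ₐ[ℚ] F) →* ℂˣ} {d : ℤ} {r : F} (hr : r ^ 2 = (d : F))
    (hχ : ∀ σ, IsSign (χ σ) (σ r) r) {p : ℕ} (hp : p.Prime) (hp2 : p ≠ 2) (hd : ¬ (p : ℤ) ∣ d)
    {σ : F ≃ₐ[ℚ] F} (hσ : IsFrobenius p σ) : ((χ σ : ℂˣ) : ℂ) = ((jacobiSym d p : ℤ) : ℂ) := by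
  obtain ⟨w, hw, hpw, hfr⟩ := hσ
  have : Fact p.Prime := ⟨hp⟩
  have hpi := Nat.prime_iff_prime_int.1 hp
  have hri : IsIntegral ℤ r := by
    refine IsIntegral.of_pow (n := 2) (by norm_num) ?_
    rw [hr]
    exact isIntegral_algebraMap (R := ℤ) (x := d)
  obtain ⟨ρ, hρ⟩ : ∃ ρ : 𝓞 F, (ρ : F) = r := ⟨⟨r, hri⟩, rfl⟩
  have hρ2 : ρ ^ 2 = (d : 𝓞 F) := by
    apply RingOfIntegers.ext
    change algebraMap (𝓞 F) F (ρ ^ 2) = algebraMap (𝓞 F) F (d : 𝓞 F)
    rw [map_pow, map_intCast]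
    change (ρ : F) ^ 2 = _
    rw [hρ]
    exact hr
  obtain ⟨y, hyw, hy⟩ := hfr ρ
  rw [hρ] at hy
  have hpo : p = 2 * (p / 2) + 1 := by
    rcases hp.eq_two_or_odd with h | h
    · exact absurd h hp2
    · omega
  have hJ : jacobiSym d p = legendreSym p d := (jacobiSym.legendreSym.to_jacobiSym p d).symm
  obtain ⟨c, hc⟩ : (p : ℤ) ∣ d ^ (p / 2) - jacobiSym d p := by
    rw [← ZMod.intCast_zmod_eq_zero_iff_dvd]
    push_cast
    rw [hJ, legendreSym.eq_pow, sub_self]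
  have hrp : r ^ p = ((jacobiSym d p : ℤ) : F) * r + (p : F) * (c : F) * r := by
    have h1 : r ^ p = (r ^ 2) ^ (p / 2) * r := by
      rw [← pow_mul, ← pow_succ, ← hpo]
    have h2 : ((d ^ (p / 2) : ℤ) : F) = ((jacobiSym d p : ℤ) : F) + (p : F) * (c : F) := by
      have h3 := congrArg (fun z : ℤ => (z : F)) hc
      push_cast at h3 ⊢
      linear_combination h3
    rw [h1, hr]
    push_cast at h2
    rw [h2]
    ring
  have hkey : ∃ t ∈ w, (t : F) = σ r - ((jacobiSym d p : ℤ) : F) * r := by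
    refine ⟨y + (p : 𝓞 F) * (c : 𝓞 F) * ρ, w.add_mem hyw (w.mul_mem_right _
      (w.mul_mem_right _ hpw)), ?_⟩
    change algebraMap (𝓞 F) F (y + (p : 𝓞 F) * (c : 𝓞 F) * ρ) = _
    rw [map_add, map_mul, map_mul, map_natCast, map_intCast]
    change (y : F) + (p : F) * (c : F) * (ρ : F) = _
    rw [hρ, hy, hrp]
    ring
  -- `2 r` is not in `w`
  have h2r : ∀ t ∈ w, (t : F) ≠ 2 * r := by
    intro t ht h1
    have h2 : t = 2 * ρ := by
      apply RingOfIntegers.ext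
      change (t : F) = algebraMap (𝓞 F) F (2 * ρ)
      rw [map_mul, map_ofNat]
      change (t : F) = 2 * (ρ : F)
      rw [hρ]
      exact h1
    have h3 : ((4 * d : ℤ) : 𝓞 F) ∈ w := by
      have h4 : ((4 * d : ℤ) : 𝓞 F) = t * t := by
        rw [h2]
        push_cast
        rw [← hρ2]
        ring
      rw [h4]
      exact w.mul_mem_left _ ht
    have hcop : IsCoprime ((p : ℕ) : ℤ) (4 * d) :=
      (hpi.irreducible.coprime_iff_not_dvd).2 fun h1 => by
        rcases hpi.dvd_or_dvd h1 with h4 | h4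
        · have h5 : (p : ℤ) ∣ 2 := by
            have h6 : (4 : ℤ) = 2 * 2 := by norm_num
            rw [h6] at h4
            rcases hpi.dvd_or_dvd h4 with h | h <;> exact h
          have h6 : p ∣ 2 := by exact_mod_cast h5
          exact hp2 ((Nat.prime_dvd_prime_iff_eq hp Nat.prime_two).1 h6)
        · exact hd h4
    exact not_mem_both hcop hw.ne_top (by push_cast; exact hpw) h3
  have hsym : jacobiSym d p = 1 ∨ jacobiSym d p = -1 := by
    rw [hJ]
    refine legendreSym.eq_one_or_neg_one p ?_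
    rwa [Ne, ZMod.intCast_zmod_eq_zero_iff_dvd]
  obtain ⟨t, htw, ht⟩ := hkey
  have hneg : ((-t : 𝓞 F) : F) = -(t : F) := by push_cast; rfl
  rcases hχ σ with ⟨h1, h2⟩ | ⟨h1, h2⟩ <;> rcases hsym with h3 | h3
  · rw [h1, h3]; simp
  · exfalso
    refine h2r _ htw (ht.trans ?_)
    rw [h2, h3]
    push_cast
    ring
  · exfalso
    refine h2r _ (w.neg_mem htw) (hneg.trans ((congrArg (fun x => -x) ht).trans ?_))
    rw [h2, h3]
    push_cast
    ring
  · rw [h1, h3]; simp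

/-- the sign of an automorphism at a square root -/
theorem sign_unit {r : F} (hr0 : r ≠ 0) {c : ℤ} (hr : r ^ 2 = (c : F)) (σ : F ≃ₐ[ℚ] F) :
    ∃! u : ℤˣ, σ r = ((u : ℤ) : F) * r := by
  have h1 : (σ r) ^ 2 = r ^ 2 := by rw [← map_pow, hr, map_intCast]
  have h11 : (1 : F) ≠ -1 := by
    intro h
    have : (2 : F) = 0 := by linear_combination h
    exact two_ne_zero this
  have huniq : ∀ u w : ℤˣ, ((u : ℤ) : F) * r = ((w : ℤ) : F) * r → u = w := by
    intro u w h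
    have h2 := mul_right_cancel₀ hr0 h
    rcases Int.units_eq_one_or u with rfl | rfl <;> rcases Int.units_eq_one_or w with rfl | rfl
    · rfl
    · exact absurd (by simpa using h2) h11
    · exact absurd (by simpa using h2.symm) h11
    · rfl
  rcases sq_eq_sq_iff_eq_or_eq_neg.1 h1 with h | h
  · refine ⟨1, by simpa using h, fun w hw => huniq _ _ ?_⟩
    rw [← hw, h]; simp
  · refine ⟨-1, by simpa using h, fun w hw => huniq _ _ ?_⟩
    rw [← hw, h]; simp

/-- a square root gives a character -/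
theorem exists_char {r : F} (hr0 : r ≠ 0) {c : ℤ} (hr : r ^ 2 = (c : F)) :
    ∃ χ : (F ≃ₐ[ℚ] F) →* ℂˣ, ∀ σ, IsSign (χ σ) (σ r) r := by
  have hex : ∀ σ : F ≃ₐ[ℚ] F, ∃! u : ℤˣ, σ r = ((u : ℤ) : F) * r := fun σ => sign_unit hr0 hr σ
  choose u hu hun using hex
  let f : (F ≃ₐ[ℚ] F) →* ℤˣ :=
    { toFun := fun σ => u σ
      map_one' := by
        symm
        apply hun
        simp
      map_mul' := by
        intro σ τ
        symm
        apply hun
        rw [AlgEquiv.mul_apply, hu τ, map_mul, map_intCast, hu σ, Units.val_mul]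
        push_cast
        ring }
  refine ⟨(Units.map (Int.castRingHom ℂ).toMonoidHom).comp f, fun σ => ?_⟩
  have h1 : ((Units.map (Int.castRingHom ℂ).toMonoidHom).comp f) σ =
      Units.map (Int.castRingHom ℂ).toMonoidHom (u σ) := rfl
  rw [h1]
  have h2 := hu σ
  rcases Int.units_eq_one_or (u σ) with h | h
  · left
    rw [h] at h2 ⊢
    exact ⟨map_one _, by simpa using h2⟩
  · right
    rw [h] at h2 ⊢
    refine ⟨?_, by simpa using h2⟩
    ext
    simp

/-- **Every character is given by a square root.** -/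
theorem exists_cut {n : ℕ} {d : Fin n → ℤ} {r : Fin n → F} (hsq : ∀ i, r i ^ 2 = (d i : F))
    (h0 : ∀ i, d i ≠ 0) (hgen : IntermediateField.adjoin ℚ (Set.range r) = ⊤)
    (χ : (F ≃ₐ[ℚ] F) →* ℂˣ) :
    ∃ T : Finset (Fin n), ∀ σ : F ≃ₐ[ℚ] F, IsSign (χ σ) (σ (∏ i ∈ T, r i)) (∏ i ∈ T, r i) := by
  classical
  have hr0 : ∀ i, r i ≠ 0 := by
    intro i h
    have h1 := hsq i
    rw [h, zero_pow two_ne_zero] at h1
    exact h0 i (by exact_mod_cast h1.symm)
  have hex : ∀ (σ : F ≃ₐ[ℚ] F) (i : Fin n), ∃! u : ℤˣ, σ (r i) = ((u : ℤ) : F) * r i :=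
    fun σ i => sign_unit (hr0 i) (hsq i) σ
  choose u hu hun using hex
  let f : (F ≃ₐ[ℚ] F) →* (Fin n → ℤˣ) :=
    { toFun := fun σ i => u σ i
      map_one' := by
        funext d
        symm
        apply hun
        simp
      map_mul' := by
        intro σ τ
        funext d
        symm
        apply hun
        rw [AlgEquiv.mul_apply, hu τ d, map_mul, map_intCast, hu σ d, Pi.mul_apply, Units.val_mul]
        push_cast
        ring }
  have hf : ∀ σ d, f σ d = u σ d := fun σ d => rfl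
  have hinj : Function.Injective f := by
    rw [injective_iff_map_eq_one]
    intro σ hσ
    refine gal_inj hgen σ fun i => ?_
    have h2 := hu σ i
    have h3 : u σ i = 1 := congrFun hσ i
    rw [h3] at h2
    simpa using h2
  let e := MonoidHom.ofInjective hinj
  obtain ⟨ψ, hψ⟩ := MonoidHom.domRestrict_surjective (M := ℂ) f.range (χ.comp e.symm.toMonoidHom)
  have hψ' : ∀ σ, ψ (f σ) = χ σ := by
    intro σ
    have h1 := DFunLike.congr_fun hψ (e σ)
    have h2 : (e σ : Fin n → ℤˣ) = f σ := rfl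
    change ψ (e σ : Fin n → ℤˣ) = χ (e.symm (e σ)) at h1
    rw [h2, MulEquiv.symm_apply_apply] at h1
    exact h1
  have hm1 : ∀ i : Fin n, ψ (Pi.mulSingle i (-1)) = 1 ∨ ψ (Pi.mulSingle i (-1)) = -1 := by
    intro d
    have h1 : ψ (Pi.mulSingle d (-1)) ^ 2 = 1 := by
      rw [← map_pow, ← Pi.mulSingle_pow]
      simp
    have h2 : ((ψ (Pi.mulSingle d (-1)) : ℂˣ) : ℂ) ^ 2 = 1 := by
      rw [← Units.val_pow_eq_pow_val, h1, Units.val_one]
    rcases mul_self_eq_one_iff.1 ((sq _).symm.trans h2) with h | h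
    · left; exact Units.ext h
    · right; exact Units.ext (by simpa using h)
  set T : Finset (Fin n) := Finset.univ.filter (fun i => ψ (Pi.mulSingle i (-1)) = -1) with hT
  have hmem : ∀ i, i ∈ T ↔ ψ (Pi.mulSingle i (-1)) = -1 := fun i => by
    rw [hT, Finset.mem_filter]
    exact ⟨fun h => h.2, fun h => ⟨Finset.mem_univ _, h⟩⟩
  refine ⟨T, ?_⟩
  intro σ
  have hx : ψ (f σ) = ∏ d : Fin n, ψ (Pi.mulSingle d (u σ d)) := by
    conv_lhs => rw [← Finset.univ_prod_mulSingle (f σ), map_prod]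
    rfl
  set m : ℤ := ∏ d : Fin n, if d ∈ T then (u σ d : ℤ) else 1 with hn
  have hσT : σ (∏ d ∈ T, r d) = (m : F) * ∏ d ∈ T, r d := by
    have h1 : ∏ d ∈ T, r d = ∏ d : Fin n, if d ∈ T then r d else 1 := by
      rw [Finset.prod_ite_mem, Finset.univ_inter]
    rw [h1, map_prod, hn]
    push_cast
    rw [← Finset.prod_mul_distrib]
    refine Finset.prod_congr rfl fun d _ => ?_
    split_ifs with h
    · exact hu σ d
    · simp
  have hval : ((χ σ : ℂˣ) : ℂ) = (m : ℂ) := by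
    rw [← hψ' σ, hx, hn]
    push_cast
    refine Finset.prod_congr rfl fun d _ => ?_
    rcases Int.units_eq_one_or (u σ d) with h | h
    · rw [h]
      simp
    · rw [h]
      split_ifs with h1
      · rw [(hmem d).1 h1]
        simp
      · have h2 := (hm1 d).resolve_right (fun h2 => h1 ((hmem d).2 h2))
        rw [h2]
        simp
  have hn1 : m = 1 ∨ m = -1 := by
    have h1 : IsUnit m := by
      rw [hn]
      refine IsUnit.prod_iff.2 ?_ |> id
      intro d _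
      split_ifs
      · exact (u σ d).isUnit
      · exact isUnit_one
    exact Int.isUnit_iff.1 h1
  rcases hn1 with h | h
  · left
    rw [h] at hval hσT
    refine ⟨Units.ext (by rw [hval]; simp), by rw [hσT]; simp⟩
  · right
    rw [h] at hval hσT
    refine ⟨Units.ext (by rw [hval]; simp), by rw [hσT]; simp⟩

end Pool.Agent.R413.MQ.Art
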