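import Pool.Agent.R413.MQ.Frob

/-!
# The isotypic parts of the Mordell-Weil group over a multiquadratic field
-/

set_option autoImplicit false

open NumberField WeierstrassCurve
open scoped TensorProduct

namespace Pool.Agent.R413.MQ.Art

/-- the curve `y² = x³ - 35 M² x - 98 M³` -/
def curve (M : ℤ) : WeierstrassCurve ℚ :=
  { a₁ := 0, a₂ := 0, a₃ := 0, a₄ := -35 * (M : ℚ) ^ 2, a₆ := -98 * (M : ℚ) ^ 3 }

variable {F : Type} [Field F] [NumberField F]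

open Classical in
/-- The subspace of the vectors `v` of `ℂ ⊗ W(F)` with `σ v = χ(σ) v` for all `σ`. -/
noncomputable def Part (χ : (F ≃ₐ[ℚ] F) →* ℂˣ) (W : WeierstrassCurve ℚ) :
    Submodule ℂ (ℂ ⊗[ℤ] (W.baseChange F).toAffine.Point) where
  carrier := {v | ∀ σ : F ≃ₐ[ℚ] F, LinearMap.baseChange ℂ
    (Affine.Point.map (W' := W.toAffine) (σ : F →ₐ[ℚ] F)).toIntLinearMap v = ((χ σ : ℂˣ) : ℂ) • v}
  zero_mem' := fun σ => by rw [map_zero, smul_zero]
  add_mem' := fun {v w} hv hw σ => by rw [map_add, hv σ, hw σ, smul_add]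
  smul_mem' := fun c v hv σ => by rw [map_smul, hv σ, smul_comm]

open Classical in
/-- The multiplicity of the character `χ` in `ℂ ⊗ W(F)`. -/
noncomputable def mult (χ : (F ≃ₐ[ℚ] F) →* ℂˣ) (W : WeierstrassCurve ℚ) : ℕ :=
  Module.finrank ℂ (Part χ W)

/-- coordinates -/
def toOpt {W : WeierstrassCurve F} : W.toAffine.Point → Option (F × F)
  | .zero => none
  | .some x y _ => some (x, y)

theorem toOpt_inj {W : WeierstrassCurve F} : Function.Injective (toOpt (W := W)) := by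
  rintro (_ | ⟨x, y, h⟩) (_ | ⟨x', y', h'⟩) he
  · rfl
  · simp [toOpt] at he
  · simp [toOpt] at he
  · simp only [toOpt, Option.some.injEq, Prod.mk.injEq] at he
    obtain ⟨rfl, rfl⟩ := he
    rfl

open Classical in
/-- the points with `σ P = ε(σ) P` -/
theorem finite_part (hgal : IsGalois ℚ F) {χ : (F ≃ₐ[ℚ] F) →* ℂˣ} {M d : ℤ} {r : F}
    (hd : d ≠ 0) (hr : r ^ 2 = (d : F)) (hχ : ∀ σ, IsSign (χ σ) (σ r) r)
    (hfin : {q : ℚ × ℚ | q.2 ^ 2 = q.1 ^ 3 + ((-35 * (M * d) ^ 2 : ℤ) : ℚ) * q.1 +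
      ((-98 * (M * d) ^ 3 : ℤ) : ℚ)}.Finite) :
    {P : ((curve M).baseChange F).toAffine.Point | ∀ σ : F ≃ₐ[ℚ] F,
      (χ σ = 1 → Affine.Point.map (W' := (curve M).toAffine) (σ : F →ₐ[ℚ] F) P = P) ∧
      (χ σ = -1 → Affine.Point.map (W' := (curve M).toAffine) (σ : F →ₐ[ℚ] F) P = -P)}.Finite := by
  have hdF : (d : F) ≠ 0 := by exact_mod_cast hd
  have hdQ : (d : ℚ) ≠ 0 := by exact_mod_cast hd
  have hr0 : r ≠ 0 := by
    rintro rfl
    rw [zero_pow two_ne_zero] at hr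
    exact hdF hr.symm
  refine Set.Finite.of_finite_image (f := toOpt) ?_ toOpt_inj.injOn
  refine ((hfin.image fun q : ℚ × ℚ => (Option.some (((q.1 / d : ℚ) : F),
    ((q.2 / d ^ 2 : ℚ) : F) * r) : Option (F × F))).union (Set.finite_singleton none)).subset ?_
  rintro _ ⟨P, hP, rfl⟩
  rcases P with _ | ⟨x, y, h⟩
  · right
    rfl
  · left
    have hx : ∀ σ : F ≃ₐ[ℚ] F, σ x = x ∧ σ (y / r) = y / r := by
      intro σ
      have hm : Affine.Point.map (W' := (curve M).toAffine) (σ : F →ₐ[ℚ] F) (.some x y h) =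
        .some (σ x) (σ y) (((curve M).toAffine.baseChange_nonsingular
          (σ : F →ₐ[ℚ] F).injective ..).mpr h) := rfl
      rcases hχ σ with ⟨h1, h2⟩ | ⟨h1, h2⟩
      · have h3 := (hP σ).1 h1
        rw [hm, Affine.Point.some.injEq] at h3
        exact ⟨h3.1, by rw [map_div₀, h3.2, h2]⟩
      · have h3 := (hP σ).2 h1
        rw [hm, Affine.Point.neg_some, Affine.Point.some.injEq] at h3
        have h4 : σ y = -y := by
          rw [h3.2]
          simp [Affine.negY, curve]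
        exact ⟨h3.1, by rw [map_div₀, h4, h2, neg_div_neg_eq]⟩
    obtain ⟨x₀, hx₀⟩ := (IsGalois.mem_range_algebraMap_iff_fixed (F := ℚ) x).2 fun σ => (hx σ).1
    obtain ⟨t₀, ht₀⟩ := (IsGalois.mem_range_algebraMap_iff_fixed (F := ℚ) (y / r)).2
      fun σ => (hx σ).2
    have hx₀' : (x₀ : F) = x := by rw [← hx₀, eq_ratCast]
    have ht₀' : (t₀ : F) = y / r := by rw [← ht₀, eq_ratCast]
    have hy : y = (t₀ : F) * r := by rw [ht₀', div_mul_cancel₀ _ hr0]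
    have heq : y ^ 2 = x ^ 3 - 35 * (M : F) ^ 2 * x - 98 * (M : F) ^ 3 := by
      have h1 := h.1
      rw [Affine.equation_iff] at h1
      simp only [curve, WeierstrassCurve.baseChange, WeierstrassCurve.map, map_zero, map_mul,
        map_neg, map_pow, map_ofNat, map_intCast] at h1
      linear_combination h1
    have heq' : (d : ℚ) * t₀ ^ 2 = x₀ ^ 3 - 35 * (M : ℚ) ^ 2 * x₀ - 98 * (M : ℚ) ^ 3 := by
      rw [hy, mul_pow, hr, ← hx₀'] at heq
      have h2 : (((d : ℚ) * t₀ ^ 2 : ℚ) : F) =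
          ((x₀ ^ 3 - 35 * (M : ℚ) ^ 2 * x₀ - 98 * (M : ℚ) ^ 3 : ℚ) : F) := by
        push_cast
        linear_combination heq
      exact_mod_cast h2
    refine ⟨(d * x₀, d ^ 2 * t₀), ?_, ?_⟩
    · show (d ^ 2 * t₀ : ℚ) ^ 2 = (d * x₀ : ℚ) ^ 3 + ((-35 * (M * d) ^ 2 : ℤ) : ℚ) * (d * x₀) +
        ((-98 * (M * d) ^ 3 : ℤ) : ℚ)
      push_cast
      linear_combination (d : ℚ) ^ 3 * heq'
    · show (Option.some ((((d * x₀) / d : ℚ) : F), (((d ^ 2 * t₀) / d ^ 2 : ℚ) : F) * r) :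
        Option (F × F)) = Option.some (x, y)
      rw [mul_div_cancel_left₀ x₀ hdQ, mul_div_cancel_left₀ t₀ (pow_ne_zero 2 hdQ), hx₀', hy]

open Classical in
/-- **the multiplicity is zero** -/
theorem mult_zero (hgal : IsGalois ℚ F) {χ : (F ≃ₐ[ℚ] F) →* ℂˣ} {M d : ℤ} {r : F}
    (hd : d ≠ 0) (hr : r ^ 2 = (d : F)) (hχ : ∀ σ, IsSign (χ σ) (σ r) r)
    (hfin : {q : ℚ × ℚ | q.2 ^ 2 = q.1 ^ 3 + ((-35 * (M * d) ^ 2 : ℤ) : ℚ) * q.1 +
      ((-98 * (M * d) ^ 3 : ℤ) : ℚ)}.Finite) : mult χ (curve M) = 0 := by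
  have hfp := finite_part hgal hd hr hχ hfin
  set A := ((curve M).baseChange F).toAffine.Point with hA
  let m : (F ≃ₐ[ℚ] F) → A →+ A := fun σ =>
    Affine.Point.map (W' := (curve M).toAffine) (σ : F →ₐ[ℚ] F)
  have hmm : ∀ (σ τ : F ≃ₐ[ℚ] F) (P : A), m σ (m τ P) = m (σ * τ) P := by
    intro σ τ P
    rcases P with _ | ⟨x, y, h⟩ <;> rfl
  have hε : ∀ σ, ∃ e : ℤ, ((χ σ : ℂˣ) : ℂ) = (e : ℂ) ∧ ((e = 1 ∧ χ σ = 1) ∨ (e = -1 ∧ χ σ = -1)) := by
    intro σ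
    rcases hχ σ with ⟨h1, -⟩ | ⟨h1, -⟩
    · exact ⟨1, by rw [h1]; simp, Or.inl ⟨rfl, h1⟩⟩
    · exact ⟨-1, by rw [h1]; simp, Or.inr ⟨rfl, h1⟩⟩
  choose ε hε1 hε2 using hε
  have hεm : ∀ σ τ, ε (σ * τ) = ε σ * ε τ := by
    intro σ τ
    have h1 := hε1 (σ * τ)
    rw [map_mul, Units.val_mul, hε1 σ, hε1 τ] at h1
    exact_mod_cast h1.symm
  have hεs : ∀ σ, ε σ * ε σ = 1 := by
    intro σ
    rcases hε2 σ with ⟨h, -⟩ | ⟨h, -⟩ <;> rw [h] <;> norm_num
  -- the projection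
  let Q : A → A := fun P => ∑ σ : F ≃ₐ[ℚ] F, ε σ • m σ P
  have hQ : ∀ (τ : F ≃ₐ[ℚ] F) (P : A), m τ (Q P) = ε τ • Q P := by
    intro τ P
    show m τ (∑ σ : F ≃ₐ[ℚ] F, ε σ • m σ P) = ε τ • ∑ σ : F ≃ₐ[ℚ] F, ε σ • m σ P
    rw [map_sum, Finset.smul_sum]
    refine Finset.sum_equiv (Equiv.mulLeft τ) (fun _ => by simp) fun σ _ => ?_
    rw [map_zsmul, hmm, Equiv.coe_mulLeft, hεm, smul_smul, ← mul_assoc, hεs, one_mul]
  -- the image is torsion
  have hB : ∀ P : A, ∃ k : ℕ, 0 < k ∧ k • Q P = 0 := by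
    intro P
    set B : Set A := {P : A | ∀ σ : F ≃ₐ[ℚ] F, (χ σ = 1 → m σ P = P) ∧ (χ σ = -1 → m σ P = -P)}
      with hBd
    have hBf : B.Finite := hfp
    have hmem : ∀ k : ℕ, k • Q P ∈ B := by
      intro k σ
      have h1 : m σ (k • Q P) = ε σ • (k • Q P) := by
        rw [map_nsmul, hQ, smul_comm]
      constructor
      · intro h
        rcases hε2 σ with ⟨h2, -⟩ | ⟨h2, h3⟩
        · rw [h1, h2, one_smul]
        · exfalso
          rw [h] at h3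
          have h4 := congrArg (fun z : ℂˣ => (z : ℂ)) h3
          simp only [Units.val_one, Units.val_neg] at h4
          norm_num at h4
      · intro h
        rcases hε2 σ with ⟨h2, h3⟩ | ⟨h2, -⟩
        · exfalso
          rw [h] at h3
          have h4 := congrArg (fun z : ℂˣ => (z : ℂ)) h3
          simp only [Units.val_one, Units.val_neg] at h4
          norm_num at h4
        · rw [h1, h2, neg_smul, one_smul]
    obtain ⟨k, l, hkl, he⟩ : ∃ k l : ℕ, k < l ∧ k • Q P = l • Q P := by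
      have : Finite B := hBf
      obtain ⟨k, l, hne, he⟩ := Finite.exists_ne_map_eq_of_infinite
        (fun k : ℕ => (⟨k • Q P, hmem k⟩ : B))
      have he' : k • Q P = l • Q P := congrArg Subtype.val he
      rcases lt_or_gt_of_ne hne with h | h
      · exact ⟨k, l, h, he'⟩
      · exact ⟨l, k, h, he'.symm⟩
    refine ⟨l - k, Nat.sub_pos_of_lt hkl, ?_⟩
    rw [sub_nsmul _ hkl.le, he, add_neg_cancel]
  let L : (F ≃ₐ[ℚ] F) → (ℂ ⊗[ℤ] A) →ₗ[ℂ] (ℂ ⊗[ℤ] A) := fun σ =>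
    LinearMap.baseChange ℂ (m σ).toIntLinearMap
  have hL : ∀ v : ℂ ⊗[ℤ] A, ∑ σ : F ≃ₐ[ℚ] F, (ε σ : ℂ) • L σ v = 0 := by
    intro v
    induction v using TensorProduct.induction_on with
    | zero => simp
    | add a b ha hb =>
      have e : ∀ σ, (ε σ : ℂ) • L σ (a + b) = (ε σ : ℂ) • L σ a + (ε σ : ℂ) • L σ b := fun σ => by
        rw [map_add, smul_add]
      rw [Finset.sum_congr rfl fun σ _ => e σ, Finset.sum_add_distrib, ha, hb, add_zero]
    | tmul z P =>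
      have h1 : ∀ σ, (ε σ : ℂ) • L σ (z ⊗ₜ[ℤ] P) = z ⊗ₜ[ℤ] (ε σ • m σ P) := by
        intro σ
        have h2 : L σ (z ⊗ₜ[ℤ] P) = z ⊗ₜ[ℤ] (m σ P) := LinearMap.baseChange_tmul ..
        rw [h2, TensorProduct.tmul_smul, Int.cast_smul_eq_zsmul]
      rw [Finset.sum_congr rfl fun σ _ => h1 σ, ← TensorProduct.tmul_sum]
      show z ⊗ₜ[ℤ] Q P = 0
      obtain ⟨k, hk, hk0⟩ := hB P
      have hkC : (k : ℂ) ≠ 0 := by exact_mod_cast hk.ne'
      have h2 : z = (k : ℤ) • (z / (k : ℂ)) := by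
        rw [zsmul_eq_mul]
        push_cast
        field_simp
      rw [h2, TensorProduct.smul_tmul, natCast_zsmul, hk0, TensorProduct.tmul_zero]
  have hbot : Part χ (curve M) = ⊥ := by
    rw [eq_bot_iff]
    intro v hv
    have h1 : ∀ σ, L σ v = ((χ σ : ℂˣ) : ℂ) • v := hv
    have h2 := hL v
    have h3 : ∀ σ : F ≃ₐ[ℚ] F, (ε σ : ℂ) • L σ v = v := by
      intro σ
      rw [h1 σ, hε1 σ, smul_smul]
      have h4 : (ε σ : ℂ) * (ε σ : ℂ) = 1 := by exact_mod_cast hεs σ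
      rw [h4, one_smul]
    rw [Finset.sum_congr rfl fun σ _ => h3 σ, Finset.sum_const] at h2
    have h4 : ((Finset.univ : Finset (F ≃ₐ[ℚ] F)).card : ℂ) • v = 0 := by
      rw [Nat.cast_smul_eq_nsmul]
      exact h2
    rcases smul_eq_zero.1 h4 with h5 | h5
    · exfalso
      have h6 : (Finset.univ : Finset (F ≃ₐ[ℚ] F)).card ≠ 0 := by
        rw [Finset.card_univ]
        exact Fintype.card_ne_zero
      exact h6 (by exact_mod_cast h5)
    · rw [h5]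
      exact Submodule.zero_mem _
  unfold mult
  rw [hbot]
  exact finrank_bot ℂ _

end Pool.Agent.R413.MQ.Art
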